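import Pool.Agent.H45.Lib.S8.W223.PL.Stms

/-! PP1: the square root is parametrised. -/

namespace Pool.Agent.Q211.PL

open Polynomial Pool.Agent.W223.HZ Pool.Agent.W223.PL

noncomputable section

/-- The polynomial `(2 X + X²) ^ j`. -/
def pf (j : ℕ) : ℝ[X] := (X * (C 2 + X)) ^ j

theorem pf_eval (j : ℕ) (z : ℝ) : (pf j).eval z = (z * (2 + z)) ^ j := by
  simp [pf]

theorem pf_deg (j : ℕ) : (pf j).natDegree ≤ 2 * j := by
  have h1 : (X * (C 2 + X) : ℝ[X]).natDegree ≤ 2 := by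
    refine (natDegree_mul_le).trans ?_
    have h2 : (C 2 + X : ℝ[X]).natDegree ≤ 1 := by
      refine (natDegree_add_le _ _).trans ?_
      simp
    have h3 : (X : ℝ[X]).natDegree ≤ 1 := by simp
    omega
  have h4 : (pf j).natDegree ≤ j * (X * (C 2 + X) : ℝ[X]).natDegree := natDegree_pow_le
  have h5 : j * (X * (C 2 + X) : ℝ[X]).natDegree ≤ j * 2 := Nat.mul_le_mul_left j h1
  omega

theorem pf_coeff (j : ℕ) : ∀ k, |(pf j).coeff k| ≤ 3 ^ j := by
  induction j with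
  | zero =>
    intro k
    have h1 : (pf 0) = 1 := by simp [pf]
    rw [h1, coeff_one]
    split <;> simp
  | succ j ih =>
    intro k
    have h1 : pf (j + 1) = X * (C 2 * pf j + X * pf j) := by
      unfold pf
      ring
    rw [h1]
    have hp : (0 : ℝ) < 3 ^ j := by positivity
    have hs : (3 : ℝ) ^ (j + 1) = 3 * 3 ^ j := by ring
    rw [hs]
    cases k with
    | zero =>
      rw [mul_coeff_zero, coeff_X_zero, zero_mul, abs_zero]
      positivity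
    | succ k =>
      rw [coeff_X_mul, coeff_add, coeff_C_mul]
      cases k with
      | zero =>
        have h2 : (X * pf j).coeff 0 = 0 := by rw [mul_coeff_zero, coeff_X_zero, zero_mul]
        rw [h2]
        have h3 := ih 0
        rw [abs_le] at h3 ⊢
        constructor <;> linarith [h3.1, h3.2]
      | succ k =>
        rw [coeff_X_mul]
        have h3 := ih (k + 1)
        have h4 := ih k
        rw [abs_le] at h3 h4 ⊢
        constructor <;> linarith [h3.1, h3.2, h4.1, h4.2]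

theorem sq_bound (t : ℝ) (h : |t| ≤ 1) : |√(1 + t) - 1| ≤ |t| := by
  have h0 : 0 ≤ 1 + t := by linarith [(abs_le.1 h).1]
  have h1 : √(1 + t) ^ 2 = 1 + t := Real.sq_sqrt h0
  have h2 : 0 ≤ √(1 + t) := Real.sqrt_nonneg _
  have h3 : t = (√(1 + t) - 1) * (√(1 + t) + 1) := by
    have : (√(1 + t) - 1) * (√(1 + t) + 1) = √(1 + t) ^ 2 - 1 := by ring
    rw [this, h1]
    ring
  have h4 : |t| = |√(1 + t) - 1| * (√(1 + t) + 1) := by
    have h5 : |√(1 + t) + 1| = √(1 + t) + 1 := abs_of_nonneg (by linarith)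
    rw [← h5, ← abs_mul, ← h3]
  rw [h4]
  have h6 : 0 ≤ |√(1 + t) - 1| := abs_nonneg _
  nlinarith [mul_nonneg h6 h2]

theorem pp1 : StmtPP1 := by
  refine ⟨3, by norm_num, ?_⟩
  intro L e ι τ d₀ y hd hL hLd hτ hy m
  have hdr : (1 : ℝ) ≤ (d₀ : ℝ) := by exact_mod_cast hd
  have hd0 : (0 : ℝ) < (d₀ : ℝ) := by linarith
  have hdne : (d₀ : ℝ) ≠ 0 := hd0.ne'
  have hL1 : L / (d₀ : ℝ) ≤ 1 := by
    rw [div_le_one hd0]
    linarith
  have hL0 : 0 ≤ L / (d₀ : ℝ) := div_nonneg hL hd0.le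
  have ht : ∀ i, |(τ i : ℝ) / d₀| ≤ L / d₀ := by
    intro i
    rw [abs_div, abs_of_pos hd0]
    exact div_le_div_of_nonneg_right (hτ i) hd0.le
  have hrw : ∀ i, ((d₀ : ℝ) + τ i) / d₀ = 1 + (τ i : ℝ) / d₀ := by
    intro i
    rw [add_div, div_self hdne]
  refine ⟨fun j => pf j, 1, 1, fun _ => 1, fun i => √(1 + (τ i : ℝ) / d₀) - 1,
    fun i => y i - √(1 + (τ i : ℝ) / d₀), ?_, ?_, ?_, ?_, ?_, ?_, ?_, ?_, ?_⟩
  · intro j
    have h1 := pf_deg (j : ℕ)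
    have h2 := j.2
    show (pf j).natDegree ≤ 3 * m
    omega
  · intro j k
    have h1 := pf_coeff (j : ℕ) k
    have h2 : (3 : ℝ) ^ (j : ℕ) ≤ 3 ^ m := pow_le_pow_right₀ (by norm_num) j.2.le
    exact h1.trans h2
  · norm_num
  · norm_num
  · intro i
    have h1 : (1 : ℝ) ≤ 3 ^ m := one_le_pow₀ (by norm_num)
    linarith
  · intro i
    have h1 : |√(1 + (τ i : ℝ) / d₀) - 1| ≤ |(τ i : ℝ) / d₀| :=
      sq_bound _ ((ht i).trans hL1)
    have h2 := ht i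
    show |√(1 + (τ i : ℝ) / d₀) - 1| ≤ 3 * (L / (d₀ : ℝ))
    linarith
  · intro i
    have h1 := hy i
    rw [hrw i] at h1
    have h2 : 0 ≤ |y i - √(1 + (τ i : ℝ) / d₀)| := abs_nonneg _
    show |y i - √(1 + (τ i : ℝ) / d₀)| ≤ 3 * e
    linarith
  · intro i j
    have h0 : 0 ≤ 1 + (τ i : ℝ) / d₀ := by
      have := (abs_le.1 ((ht i).trans hL1)).1
      linarith
    have h1 : √(1 + (τ i : ℝ) / d₀) ^ 2 = 1 + (τ i : ℝ) / d₀ := Real.sq_sqrt h0
    have h2 : (√(1 + (τ i : ℝ) / d₀) - 1) * (2 + (√(1 + (τ i : ℝ) / d₀) - 1)) =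
        (τ i : ℝ) / d₀ := by
      have h3 : (√(1 + (τ i : ℝ) / d₀) - 1) * (2 + (√(1 + (τ i : ℝ) / d₀) - 1)) =
        √(1 + (τ i : ℝ) / d₀) ^ 2 - 1 := by ring
      rw [h3, h1]
      ring
    show (1 : ℝ) * (τ i : ℝ) ^ (j : ℕ) =
      (d₀ : ℝ) ^ (j : ℕ) * (pf j).eval (√(1 + (τ i : ℝ) / d₀) - 1)
    rw [pf_eval, h2, one_mul, ← mul_pow, mul_div_cancel₀ _ hdne]
  · intro i
    show y i = 1 + 1 * (√(1 + (τ i : ℝ) / d₀) - 1) + (y i - √(1 + (τ i : ℝ) / d₀))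
    ring

end

end Pool.Agent.Q211.PL
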